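import Mathlib
import Pool.Agent.TH796.AL.Alg5

set_option autoImplicit false

/-!
# Numbers of low complexity in multiplicatively independent bases

No irrational number which is not a Liouville number has simple expansions in two multiplicatively
independent bases, and irrational numbers with simple expansions in multiplicatively independent
bases are algebraically independent unless one of them is a U-number.
-/

namespace Pool.Agent.Results.MP_c9a594_an.AlgebraicIndependence

/-- the number of different blocks of length `n` in the sequence `w` -/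
noncomputable def complexity {α : Type} (w : ℕ → α) (n : ℕ) : ℕ :=
  (Set.range fun i => fun j : Fin n => w (i + j)).ncard

/-- the digit of index `n + 1` after the point in the base `b` expansion of `x` -/
noncomputable def digit (b : ℕ) (x : ℝ) (n : ℕ) : ℤ := ⌊x * (b : ℝ) ^ (n + 1)⌋ % (b : ℤ)

/-- the height of an integer polynomial: the largest absolute value of a coefficient -/
def height (P : Polynomial ℤ) : ℕ := P.support.sup fun i => (P.coeff i).natAbs

/-- Mahler's U-numbers: for some degree `d` and every exponent `w` there are infinitely many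
`P ∈ ℤ[X]` of degree at most `d` with `0 < |P(x)| ≤ (height P) ^ (-w)` -/
def UNumber (x : ℝ) : Prop :=
  ∃ d : ℕ, ∀ w : ℕ, {P : Polynomial ℤ | P.natDegree ≤ d ∧ 0 < |Polynomial.aeval x P| ∧
    |Polynomial.aeval x P| * (height P : ℝ) ^ w ≤ 1}.Infinite

/-- the sums of the series `∑ γ(w_0) ⋯ γ(w_{n-1}) c(w_n)`, where the `w_n` are in a finite set `A`,
`γ(a)` and `c(a)` are rational, `|γ(a)| < 1`, `|γ(a)|` is in the group `Γ` and the sequence `w` has at
most `C n` different blocks of length `n`, for all `n ∈ S`. With `γ(a) = 1 / b` and `c(a) = a / b` these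
are the numbers in `[0, 1]` with at most `C n` different blocks of `n` digits in base `b`, `n ∈ S`. -/
def Series (S : Set ℕ) (Γ : Subgroup ℚˣ) : Set ℝ :=
  {x | ∃ (A : Type) (_ : Finite A) (γ c : A → ℚ) (w : ℕ → A) (C : ℝ),
    (∀ a, ∃ u ∈ Γ, |γ a| = ((u : ℚˣ) : ℚ)) ∧ (∀ a, |γ a| < 1) ∧
    HasSum (fun n => (∏ k ∈ Finset.range n, (γ (w k) : ℝ)) * (c (w n) : ℝ)) x ∧
    ∀ n ∈ S, (complexity w n : ℝ) ≤ C * n}

/-- (1) Let `a, b ≥ 2` be multiplicatively independent integers and `x` an irrational number which is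
not a Liouville number. For every `C` and every large `n`, the number `x` has more than `C n` different
blocks of `n` digits in base `a`, or in base `b`.

(2) Let `b_1, …, b_r ≥ 2` be multiplicatively independent integers and `x_1, …, x_r` irrational numbers
which are algebraically dependent and not U-numbers. For every `C` and every large `n`, some `x_i` has
more than `C n` different blocks of `n` digits in base `b_i`.

(3) Let `Γ_1, …, Γ_r` be independent subgroups of the multiplicative group of `ℚ` and `S` an infinite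
set of integers. Let `x_i` be a transcendental number which is algebraic over the field generated by
`Series S Γ_i`, or an irrational number in this field. Then `x_1, …, x_r` are algebraically independent
over `ℚ`, or one of them is a U-number.

(4) If `Γ ∩ Δ = 1` then a number which is in the field generated by `Series S Γ` and in the field
generated by `Series S Δ` is rational or a Liouville number.

(5) Let `Γ_i ∩ Γ_j = 1` for `i ≠ j`, let `y_i` be in the ring generated over `ℚ` by `Series S Γ_i` and let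
`∑ α_i y_i` be algebraic, where the `α_i` are nonzero real algebraic numbers. Then each `y_i` is
rational or a Liouville number. -/
theorem result :
    (∀ a b : ℕ, 2 ≤ a → 2 ≤ b → (∀ k l : ℕ, a ^ k = b ^ l → k = 0 ∧ l = 0) →
      ∀ x : ℝ, Irrational x → ¬ Liouville x → ∀ C : ℝ, ∃ n₀ : ℕ, ∀ n ≥ n₀,
        C * n < complexity (digit a x) n ∨ C * n < complexity (digit b x) n) ∧
    (∀ (r : ℕ) (b : Fin r → ℕ), (∀ i, 2 ≤ b i) →
      (∀ k : Fin r → ℤ, ∏ i, (b i : ℚ) ^ k i = 1 → k = 0) → ∀ x : Fin r → ℝ,
      (∀ i, Irrational (x i)) → (∀ i, ¬ UNumber (x i)) → ¬ AlgebraicIndependent ℚ x →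
      ∀ C : ℝ, ∃ n₀ : ℕ, ∀ n ≥ n₀, ∃ i, C * n < complexity (digit (b i) (x i)) n) ∧
    (∀ (r : ℕ) (Γ : Fin r → Subgroup ℚˣ),
      (∀ g : Fin r → ℚˣ, (∀ i, g i ∈ Γ i) → ∏ i, g i = 1 → ∀ i, g i = 1) →
      ∀ S : Set ℕ, S.Infinite → ∀ x : Fin r → ℝ,
      (∀ i, Transcendental ℚ (x i) ∧ IsAlgebraic (Subfield.closure (Series S (Γ i))) (x i) ∨
        Irrational (x i) ∧ x i ∈ Subfield.closure (Series S (Γ i))) →
      AlgebraicIndependent ℚ x ∨ ∃ i, UNumber (x i)) ∧
    (∀ Γ Δ : Subgroup ℚˣ, Γ ⊓ Δ = ⊥ → ∀ S : Set ℕ, S.Infinite → ∀ x : ℝ,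
      x ∈ Subfield.closure (Series S Γ) → x ∈ Subfield.closure (Series S Δ) →
      ¬ Irrational x ∨ Liouville x) ∧
    (∀ (r : ℕ) (Γ : Fin r → Subgroup ℚˣ), (∀ i j, i ≠ j → Γ i ⊓ Γ j = ⊥) →
      ∀ S : Set ℕ, S.Infinite → ∀ y α : Fin r → ℝ,
      (∀ i, y i ∈ Algebra.adjoin ℚ (Series S (Γ i))) → (∀ i, IsAlgebraic ℚ (α i) ∧ α i ≠ 0) →
      IsAlgebraic ℚ (∑ i, α i * y i) → ∀ i, ¬ Irrational (y i) ∨ Liouville (y i)) := by
  refine ⟨fun a b ha hb hab x hx hL C => Pool.Agent.TH796.AL.Ai.digits_two ha hb hab hx hL C,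
    fun r b hb h x hx hU hdep C => Pool.Agent.TH796.AL.Ai.digits_several hb h hx hU hdep C,
    fun r Γ hΓ S hS x hx => ?_, fun Γ Δ h S hS x hx hy => ?_,
    fun r Γ hΓ S hS y α hy hα hsum i => ?_⟩
  · by_cases hdep : AlgebraicIndependent ℚ x
    · exact Or.inl hdep
    · refine Or.inr (Pool.Agent.TH796.AL.Alg.indep_alg hΓ hS x (fun i => ?_) (fun i => ?_) hdep)
      · rcases hx i with h | h
        · exact h.2
        · exact isAlgebraic_algebraMap (⟨x i, h.2⟩ : Subfield.closure (Series S (Γ i)))
      · rcases hx i with h | h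
        · exact h.1
        · exact Pool.Agent.TH796.AL.Ai.transc_thm hS h.2 h.1
  · by_cases hirr : Irrational x
    · exact Or.inr (Pool.Agent.TH796.AL.Ai.two_thm h hS hx hy hirr)
    · exact Or.inl hirr
  · by_cases hirr : Irrational (y i)
    · exact Or.inr (Pool.Agent.TH796.AL.Ai.sums_groups hΓ hS y hy α (fun i => (hα i).1) hsum i
        (hα i).2 hirr)
    · exact Or.inl hirr

end Pool.Agent.Results.MP_c9a594_an.AlgebraicIndependence
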