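import Mathlib
import Pool.Agent.TH723.BR.Multi

set_option autoImplicit false

/-!
For all real `x` outside a set of uniqueness for trigonometric series the orbits of `x` under
multiplication by all the bases of a countable set are jointly dense modulo one.
-/

namespace Pool.Agent.Results.MP_c9a594_an.AllBasesUniqueness

open Filter Topology
open Pool.Agent.TH723.BR

lemma pow_QR {m : ℕ} (θ : Fin m → ℝ) (h1 : ∀ i, 1 < θ i) (hinj : Function.Injective θ) :
    QR (fun n i => θ i ^ n) := by
  intro a ha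
  have hne : (Finset.univ.filter fun i => a i ≠ 0).Nonempty := by
    by_contra hc
    rw [Finset.not_nonempty_iff_eq_empty, Finset.filter_eq_empty_iff] at hc
    apply ha
    ext i
    by_contra hi
    exact hc (Finset.mem_univ i) hi
  obtain ⟨j, hj, hmax⟩ := Finset.exists_max_image _ θ hne
  have haj : a j ≠ 0 := (Finset.mem_filter.1 hj).2
  have hj0 : 0 < θ j := one_pos.trans (h1 j)
  have hlim : Tendsto (fun n : ℕ => ∑ i, (a i : ℝ) * (θ i / θ j) ^ n) atTop
      (𝓝 (∑ i, if i = j then (a j : ℝ) else 0)) := by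
    apply tendsto_finsetSum
    intro i _
    by_cases hij : i = j
    · subst hij
      rw [if_pos rfl, div_self hj0.ne']
      simp
    · rw [if_neg hij]
      by_cases hai : a i = 0
      · simp [hai]
      · have h2 : θ i < θ j := by
          refine lt_of_le_of_ne (hmax i (Finset.mem_filter.2 ⟨Finset.mem_univ _, hai⟩)) ?_
          exact fun h => hij (hinj h)
        have h3 := tendsto_pow_atTop_nhds_zero_of_lt_one
          (div_nonneg (one_pos.trans (h1 i)).le hj0.le) ((div_lt_one hj0).2 h2)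
        have h4 := h3.const_mul (a i : ℝ)
        rwa [mul_zero] at h4
  rw [Finset.sum_ite_eq' Finset.univ j, if_pos (Finset.mem_univ j)] at hlim
  have h3 := (tendsto_pow_atTop_atTop_of_one_lt (h1 j)).atTop_mul_pos
    (abs_pos.2 (by exact_mod_cast haj : (a j : ℝ) ≠ 0)) hlim.abs
  refine h3.congr fun n => ?_
  rw [← abs_of_pos (pow_pos hj0 n), ← abs_mul, Finset.mul_sum]
  congr 1
  apply Finset.sum_congr rfl
  intro i _
  simp only
  rw [div_pow]
  field_simp

/-- Let `Θ` be a countable set of real numbers greater than one. If a trigonometric series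
`∑ c_n e(n x)` converges to zero at every real `x` such that for every finite subset `F` of `Θ` the
sequence `(θ^n x)_{θ ∈ F}` is dense modulo one in the torus `(ℝ/ℤ)^F`, then all its coefficients
are zero. -/
theorem result (Θ : Set ℝ) (hΘ : Θ.Countable) (h1 : ∀ θ ∈ Θ, 1 < θ) (c : ℤ → ℂ)
    (hc : ∀ x : ℝ,
      (∀ F : Finset ℝ, (F : Set ℝ) ⊆ Θ → ∀ (γ : ℝ → ℝ) (ε : ℝ), 0 < ε → ∀ N : ℕ,
        ∃ n, N ≤ n ∧ ∀ θ ∈ F, |θ ^ n * x - γ θ - round (θ ^ n * x - γ θ)| < ε) →
      Tendsto (fun N : ℕ => ∑ n ∈ Finset.Icc (-(N : ℤ)) (N : ℤ),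
        c n * Complex.exp (2 * (Real.pi : ℂ) * Complex.I * (n : ℂ) * (x : ℂ))) atTop (𝓝 0)) :
    ∀ n, c n = 0 := by
  have : Countable Θ := hΘ.to_subtype
  apply uniqueness_real (ι := Finset Θ) (fun F => F.card)
    (fun F n i => ((F.equivFin.symm i : Θ) : ℝ) ^ n)
    (fun F => pow_QR (fun i => ((F.equivFin.symm i : Θ) : ℝ))
      (fun i => h1 _ (F.equivFin.symm i : Θ).2) (by
        intro i j hij
        exact F.equivFin.symm.injective (Subtype.ext (Subtype.ext hij)))) c
  intro x hx
  refine hc x fun F hF γ ε hε N => ?_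
  classical
  set G : Finset Θ := F.subtype (· ∈ Θ) with hG
  obtain ⟨n, hn, h⟩ := hx G (fun i => γ ((G.equivFin.symm i : Θ) : ℝ)) ε hε N
  refine ⟨n, hn, fun θ hθ => ?_⟩
  have hmem : (⟨θ, hF hθ⟩ : Θ) ∈ G := by
    rw [hG, Finset.mem_subtype]
    exact hθ
  have h2 := h (G.equivFin ⟨⟨θ, hF hθ⟩, hmem⟩)
  simp only [Equiv.symm_apply_apply] at h2
  exact h2

end Pool.Agent.Results.MP_c9a594_an.AllBasesUniqueness
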