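import Pool.Agent.TH382.FO.Dens

/-!
# Random digits in base `a` and orbits in base `b`

The digits of `x` in base `a` are independent random variables whose joint law has no atom; no other
condition is put on them.  Let `b` miss a prime factor of `a`.  Then the Weyl means of the orbit of
`x` under multiplication by `b` tend to zero in mean square, so along one sequence of times almost
every orbit is equidistributed, and almost every orbit under multiplication by `b` is dense.

The digits may be random at a very sparse set of places only; then the orbit closure of `x` under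
multiplication by `a` has dimension zero.
-/

set_option autoImplicit false

namespace Pool.Agent.Results.MP_c9a594_an.RandomDigits

open MeasureTheory ProbabilityTheory Filter Topology

/-- the closure of the orbit of `x` under `x ↦ m x mod 1`, as a subset of the real line -/
def orb (m : ℕ) (x : ℝ) : Set ℝ :=
  closure (Set.range fun n : ℕ => Int.fract ((m : ℝ) ^ n * x))

/-- the number `∑ c k / a ^ (k + 1)` with the digits `c 0, c 1, …` in base `a` -/
noncomputable def val (a : ℕ) (c : ℕ → Fin a) : ℝ := ∑' k, ((c k : ℕ) : ℝ) / (a : ℝ) ^ (k + 1)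

/-- the Weyl mean `(1 / N) ∑_{n < N} exp (2 π i h b ^ n x)` -/
noncomputable def weyl (b : ℕ) (h : ℤ) (N : ℕ) (x : ℝ) : ℂ :=
  (∑ n ∈ Finset.range N, Complex.exp (2 * Real.pi * Complex.I * (h * ((b : ℝ) ^ n * x) : ℝ))) / N

/-- the gaps between nonzero digits tend to infinity -/
def Sparse {a : ℕ} (c : ℕ → Fin a) : Prop :=
  ∀ G : ℕ, ∃ N : ℕ, ∀ i j : ℕ, N ≤ i → i < j → (c i : ℕ) ≠ 0 → (c j : ℕ) ≠ 0 → i + G ≤ j

lemma weyl_eq (b : ℕ) (h : ℤ) (N : ℕ) (x : ℝ) : weyl b h N x = TH382.FO.weyl b h N x := by
  unfold weyl TH382.FO.weyl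
  congr 1
  refine Finset.sum_congr rfl fun n _ => ?_
  unfold TH382.FO.e
  congr 1
  push_cast
  ring

lemma irrational_of_orb {b : ℕ} {x : ℝ} (h : orb b x = Set.Icc 0 1) : Irrational x := by
  rintro ⟨q, rfl⟩
  have hfin : (Set.range fun n : ℕ => Int.fract ((b : ℝ) ^ n * (q : ℝ))).Finite := by
    refine ((Finset.range q.den).image fun k : ℕ => (k : ℝ) / q.den).finite_toSet.subset ?_
    rintro _ ⟨n, rfl⟩
    have hd : (0 : ℝ) < q.den := by exact_mod_cast q.den_pos
    have hdz : (0 : ℤ) < q.den := by exact_mod_cast q.den_pos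
    set m : ℤ := (b : ℤ) ^ n * q.num with hm
    have h1 : (b : ℝ) ^ n * (q : ℝ) = (m : ℝ) / q.den := by
      rw [hm, Rat.cast_def]
      push_cast
      ring
    have h2 : Int.fract ((b : ℝ) ^ n * (q : ℝ)) = ((m % q.den : ℤ) : ℝ) / q.den := by
      rw [h1, Int.fract_eq_iff]
      refine ⟨div_nonneg (by exact_mod_cast Int.emod_nonneg _ hdz.ne') hd.le, ?_, m / q.den, ?_⟩
      · rw [div_lt_one hd]
        exact_mod_cast Int.emod_lt_of_pos _ hdz
      · rw [← sub_div, div_eq_iff hd.ne']
        have h3 := Int.emod_add_mul_ediv m q.den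
        have h4 : (m : ℝ) = ((m % q.den : ℤ) : ℝ) + (q.den : ℝ) * ((m / q.den : ℤ) : ℝ) := by
          exact_mod_cast h3.symm
        rw [h4]
        have h5 : ((m % q.den : ℤ) : ℝ) + (q.den : ℝ) * ((m / q.den : ℤ) : ℝ) = m := h4.symm
        rw [h5]
        linarith
    simp only [Finset.coe_image, Set.mem_image, Finset.mem_coe, Finset.mem_range]
    refine ⟨(m % q.den).toNat, ?_, ?_⟩
    · have h3 := Int.emod_nonneg m hdz.ne'
      have h4 := Int.emod_lt_of_pos m hdz
      omega
    · rw [h2]
      congr 1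
      have h3 := Int.toNat_of_nonneg (Int.emod_nonneg m hdz.ne')
      exact_mod_cast h3
  have h1 : (orb b (q : ℝ)).Finite := by
    unfold orb
    rw [hfin.isClosed.closure_eq]
    exact hfin
  rw [h] at h1
  exact Set.Icc_infinite (by norm_num : (0 : ℝ) < 1) h1

/-- **Independent digits without atoms.**  Let the digits `X k` of `x` in base `a` be independent
and let no single digit sequence have positive probability.  Let the prime `p` divide `a` and not
`b`.  Then all Weyl means of the orbit of `x` under multiplication by `b` tend to zero in mean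
square, and for one sequence of times `N i` and almost every `x` the orbit is equidistributed along
the `N i`; so `x` is irrational, its orbit closure under multiplication by `b` is the whole
interval, and the sum of the two dimensions is at least one.  If the nonzero digits of `x` are
sparse, the first dimension is zero. -/
theorem result {a b p : ℕ} (ha : 2 ≤ a) (hb : 2 ≤ b) (hp : p.Prime) (hpa : p ∣ a) (hpb : ¬ p ∣ b)
    {Ω : Type*} [MeasurableSpace Ω] (P : Measure Ω) [IsProbabilityMeasure P]
    (X : ℕ → Ω → Fin a) (hX : ∀ k, Measurable (X k)) (hind : iIndepFun X P)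
    (hna : ∀ c : ℕ → Fin a, P {ω | ∀ k, X k ω = c k} = 0) :
    (∀ h : ℤ, h ≠ 0 →
      Tendsto (fun N => ∫ ω, ‖weyl b h N (val a fun k => X k ω)‖ ^ 2 ∂P) atTop (𝓝 0)) ∧
    ∃ N : ℕ → ℕ, StrictMono N ∧ ∀ᵐ ω ∂P,
      (∀ h : ℤ, h ≠ 0 → Tendsto (fun i => weyl b h (N i) (val a fun k => X k ω)) atTop (𝓝 0)) ∧
      Irrational (val a fun k => X k ω) ∧
      orb b (val a fun k => X k ω) = Set.Icc 0 1 ∧
      1 ≤ dimH (orb a (val a fun k => X k ω)) + dimH (orb b (val a fun k => X k ω)) ∧
      (Sparse (fun k => X k ω) → dimH (orb a (val a fun k => X k ω)) = 0) := by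
  have h1 : ∀ h : ℤ, h ≠ 0 →
      Tendsto (fun N => ∫ ω, ‖TH382.FO.weyl b h N (TH382.FO.val a fun k => X k ω)‖ ^ 2 ∂P)
        atTop (𝓝 0) := fun h hh => TH382.FO.expect_tendsto ha hb hp hpa hpb hX hind hna hh
  have hval : ∀ c : ℕ → Fin a, val a c = TH382.FO.val a c := fun c => rfl
  refine ⟨fun h hh => ?_, ?_⟩
  · simpa only [weyl_eq, hval] using h1 h hh
  obtain ⟨N, hN, hae⟩ := TH382.FO.exists_subseq (TH382.FO.val_measurable ha hX) h1
  refine ⟨N, hN, ?_⟩
  filter_upwards [hae] with ω hω
  have h2 : orb b (val a fun k => X k ω) = Set.Icc 0 1 :=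
    TH382.FO.orb_of_weyl hN.tendsto_atTop hω
  refine ⟨fun h hh => ?_, irrational_of_orb h2, h2, ?_, fun hs => TH382.FO.sparse_dim ha hs⟩
  · simpa only [weyl_eq, hval] using hω h hh
  · have h4 : (interior (Set.Icc (0 : ℝ) 1)).Nonempty :=
      ⟨1 / 2, by rw [interior_Icc]; constructor <;> norm_num⟩
    have h3 : dimH (Set.Icc (0 : ℝ) 1) = 1 := by
      rw [Real.dimH_of_nonempty_interior h4, Module.finrank_self, Nat.cast_one]
    rw [h2, h3]
    exact le_add_self

end Pool.Agent.Results.MP_c9a594_an.RandomDigits
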