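import Mathlib
import Pool.Agent.TH932.S2.All2
import Pool.Agent.TH932.S2.G.TB2
import Pool.Agent.H326R2.Pi.Top

set_option autoImplicit false

/-!
# The block complexities of an irrational number in two coprime bases
-/

namespace Pool.Agent.Results.MP_c9a594_an.TwoBasesSuperlinear

open Pool.Agent.TH932.Words Pool.Agent.TH932.S2

/-- the `k`-th digit after the point of `x` in base `b`, as a residue modulo `b`
(`k = 0` is the first one) -/
noncomputable def digit (b : ℕ) (x : ℝ) (k : ℕ) : ZMod b := ((⌊(b : ℝ) ^ (k + 1) * x⌋ : ℤ) : ZMod b)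

/-- the number of different blocks of `n` consecutive digits of `x` in base `b` -/
noncomputable def blocks (b : ℕ) (x : ℝ) (n : ℕ) : ℕ :=
  (Set.range fun i : ℕ => fun j : Fin n => digit b x (i + j)).ncard

/-- `π` is not a Liouville number -/
theorem pi_not_liouville : ¬ Liouville Real.pi := by
  intro hl
  obtain ⟨q0, hq0⟩ := Pool.Agent.H326R2.Pi.main
  obtain ⟨b, ⟨a, _, h1⟩, h2⟩ := ((hl.frequently_exists_num 7).and_eventually
    (Filter.eventually_ge_atTop (max q0 1))).exists
  have hb1 : 1 ≤ b := (le_max_right _ _).trans h2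
  have h3 := hq0 b ((le_max_left _ _).trans h2) a
  have hb : (1 : ℝ) ≤ b := by exact_mod_cast hb1
  have h4 : (1 : ℝ) / (b : ℝ) ^ 7 ≤ (b : ℝ) ^ (-(6.05 : ℝ)) := by
    rw [one_div, ← Real.rpow_natCast, ← Real.rpow_neg (by positivity)]
    exact Real.rpow_le_rpow_of_exponent_le hb (by norm_num)
  linarith

/-- **Result.** Let `a, b ≥ 2` be coprime.
(1) If `x` is irrational, then for every `C` there is `n ≥ 1` such that the number of blocks of `n`
digits of `x` is greater than `C n` in base `a` or in base `b`.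
(2) If `x` is irrational and not a Liouville number, then for every `C` this holds for all
sufficiently large `n`.
(3) In particular it holds for `π`. -/
theorem result {a b : ℕ} (ha : 2 ≤ a) (hb : 2 ≤ b) (hab : Nat.Coprime a b) (C : ℝ) :
    (∀ x : ℝ, Irrational x → ∃ n : ℕ, 1 ≤ n ∧ C * n < max (blocks a x n : ℝ) (blocks b x n)) ∧
    (∀ x : ℝ, Irrational x → ¬ Liouville x →
      ∃ n0 : ℕ, ∀ n : ℕ, n0 ≤ n → C * n < max (blocks a x n : ℝ) (blocks b x n)) ∧
    (∃ n0 : ℕ, ∀ n : ℕ, n0 ≤ n →
      C * n < max (blocks a Real.pi n : ℝ) (blocks b Real.pi n)) := by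
  have hco : IsCoprime (b : ℤ) (a : ℤ) := Nat.isCoprime_iff_coprime.2 hab.symm
  have key : ∀ x : ℝ, Irrational x → ¬ Liouville x →
      ∃ n0 : ℕ, ∀ n : ℕ, n0 ≤ n → C * n < max (blocks a x n : ℝ) (blocks b x n) :=
    fun x hx hl => G.two_bases_local ha hb hco hx hl C
  refine ⟨fun x hx => ?_, key, key _ irrational_pi pi_not_liouville⟩
  by_contra hcon
  push Not at hcon
  have h1 : ∀ m : ℕ, 1 ≤ m → (cx (dw a x) m : ℝ) ≤ C * m := fun m hm =>
    (le_max_left _ _).trans (hcon m hm)
  have h2 : ∀ m : ℕ, 1 ≤ m → (cx (dw b x) m : ℝ) ≤ C * m := fun m hm =>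
    (le_max_right _ _).trans (hcon m hm)
  exact two_bases ha hb hco h1 h2 hx

end Pool.Agent.Results.MP_c9a594_an.TwoBasesSuperlinear
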